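import Mathlib
import Pool.Agent.H68.SS.Code

/-!
# MP_814ec7_co, Q1: self-shuffling words with exactly one steering word exist over an alphabet
if and only if the alphabet has at least two letters.

`IsSteering x s` (in `Pool.Agent.H68.SS.Word4`): for both values `b` the set `{n | s n = b}` is
infinite and the subword of `x` at the positions of this set is `x`.
-/

namespace Pool.Agent.Results.MP_814ec7_co.BinaryOptimal

open Pool.Agent.H68.SS

/-- Over a one-letter alphabet every `s` with both values infinitely often is steering. -/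
lemma one_letter {A : Type} (hA : ∀ a b : A, a = b) (x : ℕ → A) :
    ¬ ∃! s : ℕ → Bool, s 0 = true ∧ IsSteering x s := by
  rintro ⟨s, -, hu⟩
  have h1 : (fun n : ℕ => decide (n % 2 = 0)) = s := by
    refine hu _ ⟨rfl, fun b => ⟨?_, fun k => hA _ _⟩⟩
    refine Set.infinite_of_forall_exists_gt fun a => ?_
    cases b
    · exact ⟨2 * a + 1, by simp only [Set.mem_setOf_eq, decide_eq_false_iff_not]; omega,
        by omega⟩
    · exact ⟨2 * a + 2, by simp only [Set.mem_setOf_eq, decide_eq_true_eq]; omega, by omega⟩
  have h2 : (fun n : ℕ => decide (n % 3 = 0)) = s := by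
    refine hu _ ⟨rfl, fun b => ⟨?_, fun k => hA _ _⟩⟩
    refine Set.infinite_of_forall_exists_gt fun a => ?_
    cases b
    · exact ⟨3 * a + 1, by simp only [Set.mem_setOf_eq, decide_eq_false_iff_not]; omega,
        by omega⟩
    · exact ⟨3 * a + 3, by simp only [Set.mem_setOf_eq, decide_eq_true_eq]; omega, by omega⟩
  have h3 := congrFun (h1.trans h2.symm) 2
  simp at h3

lemma equiv_congr {A B : Type} (f : A → B) (hf : Function.Injective f) (x : ℕ → A) :
    Nonempty ({s : ℕ → Bool // s 0 = true ∧ IsSteering x s} ≃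
      {s : ℕ → Bool // s 0 = true ∧ IsSteering (fun n => f (x n)) s}) :=
  ⟨Equiv.subtypeEquivRight fun s => and_congr_right fun _ => (isSteering_comp f hf x s).symm⟩

/-- Every word over a finite alphabet has a binary code with the same number of steering
words. -/
lemma to_binary (A : Type) [Finite A] (y : ℕ → A) : ∃ x : ℕ → Bool,
    Nonempty ({s : ℕ → Bool // s 0 = true ∧ IsSteering y s} ≃
      {s : ℕ → Bool // s 0 = true ∧ IsSteering x s}) := by
  obtain ⟨K, ⟨e⟩⟩ := Finite.exists_equiv_fin A
  have hinj : Function.Injective fun a : A => (e a : ℕ) := fun a b h =>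
    e.injective (Fin.ext h)
  obtain ⟨f1⟩ := equiv_congr (fun a : A => (e a : ℕ)) hinj y
  exact ⟨code K (fun n => (e (y n) : ℕ)), ⟨f1.trans (steerEquiv K _ fun n => (e (y n)).2)⟩⟩

lemma existsUnique_of_equiv {p q : (ℕ → Bool) → Prop} (f : {s // p s} ≃ {s // q s})
    (h : ∃! s, p s) : ∃! s, q s := by
  obtain ⟨s, hs, hu⟩ := h
  refine ⟨(f ⟨s, hs⟩).1, (f ⟨s, hs⟩).2, fun t ht => ?_⟩
  have h1 : (f.symm ⟨t, ht⟩).1 = s := hu _ (f.symm ⟨t, ht⟩).2
  have h2 : f.symm ⟨t, ht⟩ = ⟨s, hs⟩ := Subtype.ext h1
  rw [← h2]; simp

/-- **Main theorem.** (1) For a finite alphabet `A`, there is a self-shuffling word over `A` with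
exactly one steering word (normalised by `s 0 = true`, the first copy) if and only if `A` has at
least two letters. (2) For every word over a finite alphabet there is a binary word whose set of
(normalised) steering words has the same cardinality. -/
theorem result :
    (∀ (A : Type) [Finite A], (∃ x : ℕ → A, ∃! s : ℕ → Bool, s 0 = true ∧ IsSteering x s) ↔
      2 ≤ Nat.card A) ∧
    (∀ (A : Type) [Finite A] (y : ℕ → A), ∃ x : ℕ → Bool,
      Nonempty ({s : ℕ → Bool // s 0 = true ∧ IsSteering y s} ≃
        {s : ℕ → Bool // s 0 = true ∧ IsSteering x s})) := by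
  refine ⟨fun A _ => ⟨?_, ?_⟩, fun A _ y => to_binary A y⟩
  · rintro ⟨x, hx⟩
    by_contra hlt
    have hle : Nat.card A ≤ 1 := by omega
    have : Subsingleton A := (Finite.card_le_one_iff_subsingleton).1 hle
    exact one_letter (fun a b => Subsingleton.elim a b) x hx
  · intro hA
    have : Nontrivial A := Finite.one_lt_card_iff_nontrivial.1 (by omega)
    obtain ⟨a, b, hab⟩ := exists_pair_ne A
    obtain ⟨y, hy⟩ := uniq_four
    obtain ⟨x, ⟨f⟩⟩ := to_binary (Fin 4) y
    have hinj : Function.Injective fun c : Bool => if c then a else b := by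
      intro c d h
      cases c <;> cases d <;> simp_all
    obtain ⟨g⟩ := equiv_congr (fun c : Bool => if c then a else b) hinj x
    exact ⟨_, existsUnique_of_equiv (f.trans g) hy⟩

end Pool.Agent.Results.MP_814ec7_co.BinaryOptimal
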